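import Pool.Agent.K1H14.SD.Stm

set_option autoImplicit false

/-! The even Clifford algebra satisfies `EvenCl`: `t_LNK1`. -/

namespace Pool.Agent.K1H94.SD

open Pool.Agent.K1H14.KS Pool.Agent.K1H14.SD CliffordAlgebra
open scoped symmDiff

universe u

section mono

variable {R : Type*} [Ring R] [Algebra ℂ R] {I : Type*} [LinearOrder I] {E : I → R}

/-- the set of the elements of odd multiplicity -/
def par : List I → Finset I
  | [] => ∅
  | a :: l => par l ∆ {a}

lemma par_append (l l' : List I) : par (l ++ l') = par l ∆ par l' := by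
  induction l with
  | nil =>
    show par l' = (∅ : Finset I) ∆ par l'
    rw [← Finset.bot_eq_empty, bot_symmDiff]
  | cons a l ih =>
    show par (l ++ l') ∆ {a} = (par l ∆ {a}) ∆ par l'
    rw [ih, symmDiff_right_comm]

lemma sd_of_notMem {s : Finset I} {a : I} (h : a ∉ s) : s ∆ {a} = insert a s := by
  ext x
  simp only [Finset.mem_symmDiff, Finset.mem_singleton, Finset.mem_insert]
  constructor
  · rintro (⟨h1, -⟩ | ⟨h1, -⟩)
    · exact Or.inr h1
    · exact Or.inl h1
  · rintro (rfl | h1)
    · exact Or.inr ⟨rfl, h⟩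
    · exact Or.inl ⟨h1, fun e => h (e ▸ h1)⟩

lemma sd_of_mem {s : Finset I} {a : I} (h : a ∈ s) : s ∆ {a} = s.erase a := by
  ext x
  simp only [Finset.mem_symmDiff, Finset.mem_singleton, Finset.mem_erase]
  constructor
  · rintro (⟨h1, h2⟩ | ⟨h1, h2⟩)
    · exact ⟨h2, h1⟩
    · exact absurd (h1 ▸ h) h2
  · rintro ⟨h1, h2⟩
    exact Or.inl ⟨h2, h1⟩

lemma par_nodup (l : List I) (h : l.Nodup) : par l = l.toFinset := by
  induction l with
  | nil => rfl
  | cons a l ih =>
    rw [List.nodup_cons] at h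
    show par l ∆ {a} = _
    rw [ih h.2, sd_of_notMem (by rw [List.mem_toFinset]; exact h.1), List.toFinset_cons]

lemma par_sort (K : Finset I) : par (K.sort (· ≤ ·)) = K := by
  rw [par_nodup _ (Finset.sort_nodup _ _), Finset.sort_toFinset]

lemma par_card (l : List I) : Even (par l).card ↔ Even l.length := by
  induction l with
  | nil => simp [par]
  | cons a l ih =>
    show Even (par l ∆ {a}).card ↔ _
    rw [List.length_cons, Nat.even_add_one, ← ih]
    by_cases h : a ∈ par l
    · rw [sd_of_mem h]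
      have h1 := Finset.card_erase_add_one h
      rw [← h1, Nat.even_add_one, not_not]
    · rw [sd_of_notMem h, Finset.card_insert_of_notMem h, Nat.even_add_one]

lemma even_sd {K L : Finset I} (hK : Even K.card) (hL : Even L.card) : Even (K ∆ L).card := by
  have h := par_card (K.sort (· ≤ ·) ++ L.sort (· ≤ ·))
  rw [par_append, par_sort, par_sort, List.length_append, Finset.length_sort,
    Finset.length_sort] at h
  exact h.2 (hK.add hL)

lemma pm_mul {a b : ℂ} (ha : a = 1 ∨ a = -1) (hb : b = 1 ∨ b = -1) : a * b = 1 ∨ a * b = -1 := by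
  rcases ha with rfl | rfl <;> rcases hb with rfl | rfl <;> simp

lemma mono_perm (hE : Anti E) {l l' : List I} (h : l.Perm l') :
    ∃ ε : ℂ, (ε = 1 ∨ ε = -1) ∧ mono E l = ε • mono E l' := by
  induction h with
  | nil => exact ⟨1, Or.inl rfl, by rw [one_smul]⟩
  | cons a _ ih =>
    obtain ⟨ε, h1, h2⟩ := ih
    exact ⟨ε, h1, by rw [mono_cons, mono_cons, h2, mul_smul_comm]⟩
  | swap a b l =>
    by_cases h : b = a
    · subst h
      exact ⟨1, Or.inl rfl, by rw [one_smul]⟩
    · refine ⟨-1, Or.inr rfl, ?_⟩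
      rw [mono_cons, mono_cons, mono_cons, mono_cons, ← mul_assoc, hE.anti b a h, neg_one_smul,
        neg_mul, mul_assoc]
  | trans _ _ ih1 ih2 =>
    obtain ⟨ε, h1, h2⟩ := ih1
    obtain ⟨ε', h1', h2'⟩ := ih2
    exact ⟨ε * ε', pm_mul h1 h1', by rw [h2, h2', smul_smul]⟩

lemma mono_par (hE : Anti E) (l : List I) :
    ∃ ε : ℂ, (ε = 1 ∨ ε = -1) ∧ mono E l = ε • mono E ((par l).sort (· ≤ ·)) := by
  induction l with
  | nil => exact ⟨1, Or.inl rfl, by simp [par]⟩
  | cons a l ih =>
    obtain ⟨ε, h1, h2⟩ := ih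
    rw [mono_cons, h2]
    by_cases h : a ∈ par l
    · have hp : ((par l).sort (· ≤ ·)).Perm (a :: ((par l).erase a).sort (· ≤ ·)) := by
        refine (List.perm_ext_iff_of_nodup (Finset.sort_nodup _ _) ?_).2 fun x => ?_
        · rw [List.nodup_cons]
          exact ⟨by simp, Finset.sort_nodup _ _⟩
        · simp only [Finset.mem_sort, List.mem_cons, Finset.mem_erase]
          by_cases hx : x = a
          · subst hx; simp [h]
          · simp [hx]
      obtain ⟨ε', h3, h4⟩ := mono_perm hE hp
      refine ⟨ε * ε', pm_mul h1 h3, ?_⟩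
      show _ = (ε * ε') • mono E ((par l ∆ {a}).sort (· ≤ ·))
      rw [sd_of_mem h, h4, mono_cons, mul_smul_comm, mul_smul_comm, ← mul_assoc, hE.sq, one_mul,
        smul_smul]
    · have hp : (a :: (par l).sort (· ≤ ·)).Perm ((insert a (par l)).sort (· ≤ ·)) := by
        refine (List.perm_ext_iff_of_nodup ?_ (Finset.sort_nodup _ _)).2 fun x => ?_
        · rw [List.nodup_cons]
          exact ⟨by simpa using h, Finset.sort_nodup _ _⟩
        · simp only [Finset.mem_sort, List.mem_cons, Finset.mem_insert]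
      obtain ⟨ε', h3, h4⟩ := mono_perm hE hp
      refine ⟨ε * ε', pm_mul h1 h3, ?_⟩
      show _ = (ε * ε') • mono E ((par l ∆ {a}).sort (· ≤ ·))
      rw [sd_of_notMem h, mul_smul_comm, ← mono_cons, h4, smul_smul]

lemma mono_swap (hE : Anti E) (l l' : List I) :
    mono E l * mono E l' = (l'.map fun j => sg j l).prod • (mono E l' * mono E l) := by
  induction l' with
  | nil => simp
  | cons j l' ih =>
    rw [mono_cons, ← mul_assoc, mono_mul_E hE, smul_mul_assoc, mul_assoc, ih, mul_smul_comm,
      smul_smul, List.map_cons, List.prod_cons, mul_assoc]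

lemma sg_count (j : I) (l : List I) : sg j l * (-1) ^ (l.count j) = (-1) ^ l.length := by
  induction l with
  | nil => simp
  | cons a l ih =>
    rw [sg_cons, List.length_cons, pow_succ, ← ih, List.count_cons]
    by_cases h : a = j
    · subst h
      simp [pow_succ]
    · simp [h]

lemma sg_even (K : Finset I) (hK : Even K.card) (j : I) :
    sg j (K.sort (· ≤ ·)) = if j ∈ K then -1 else 1 := by
  have h := sg_count j (K.sort (· ≤ ·))
  rw [Finset.length_sort, hK.neg_one_pow] at h
  by_cases hj : j ∈ K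
  · rw [List.count_eq_one_of_mem (Finset.sort_nodup _ _) ((Finset.mem_sort _).2 hj)] at h
    rw [if_pos hj]
    linear_combination (-1 : ℂ) * h
  · rw [List.count_eq_zero_of_not_mem (by rw [Finset.mem_sort]; exact hj)] at h
    rw [if_neg hj]
    linear_combination h

lemma prod_sort (L : Finset I) (f : I → ℂ) : ((L.sort (· ≤ ·)).map f).prod = ∏ j ∈ L, f j := by
  rw [← List.prod_toFinset f (Finset.sort_nodup _ _), Finset.sort_toFinset]

lemma mono_comm (hE : Anti E) (K L : Finset I) (hK : Even K.card) :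
    mono E (K.sort (· ≤ ·)) * mono E (L.sort (· ≤ ·)) =
      (-1 : ℂ) ^ (K ∩ L).card • (mono E (L.sort (· ≤ ·)) * mono E (K.sort (· ≤ ·))) := by
  rw [mono_swap hE, prod_sort]
  congr 1
  rw [Finset.prod_congr rfl fun j _ => sg_even K hK j, Finset.prod_ite, Finset.prod_const,
    Finset.prod_const_one, mul_one, Finset.filter_mem_eq_inter, Finset.inter_comm]

lemma mono_reverse (hE : Anti E) (l : List I) (hl : l.Nodup) :
    mono E l.reverse = (-1 : ℂ) ^ (l.length / 2) • mono E l := by
  induction l with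
  | nil => simp
  | cons a l ih =>
    rw [List.nodup_cons] at hl
    rw [List.reverse_cons, mono_append, ih hl.2, mono_cons, mono_nil, mul_one, smul_mul_assoc,
      mono_mul_E hE, smul_smul, mono_cons, sg_notMem a l hl.1, List.length_cons]
    congr 1
    rcases Nat.even_or_odd' l.length with ⟨k, hk | hk⟩
    · rw [hk]
      have h1 : 2 * k / 2 = k := by omega
      have h2 : (2 * k + 1) / 2 = k := by omega
      rw [h1, h2, pow_mul]
      simp
    · rw [hk]
      have h1 : (2 * k + 1) / 2 = k := by omega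
      have h2 : (2 * k + 1 + 1) / 2 = k + 1 := by omega
      rw [h1, h2, pow_succ _ (2 * k), pow_mul]
      simp [pow_succ]

end mono

section cl

variable {T : Type u} [AddCommGroup T] [Module ℂ T] {Q : QuadraticForm ℂ T} {d : ℕ}
  {b : Module.Basis (Fin d) ℂ T}

lemma coe_MM (K : Finset (Fin d)) (hK : Even K.card) :
    ((MM (Q := Q) b K : W Q) : CliffordAlgebra Q) = mono (fun i => ι Q (b i)) (K.sort (· ≤ ·)) := by
  unfold MM
  rw [dif_pos hK]

lemma reverse_mono (l : List (Fin d)) :
    reverse (mono (fun i => ι Q (b i)) l) = mono (fun i => ι Q (b i)) l.reverse := by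
  induction l with
  | nil => simp
  | cons a l ih =>
    rw [mono_cons, reverse.map_mul, ih, List.reverse_cons, mono_append, mono_cons, mono_nil,
      mul_one, reverse_ι]

end cl

theorem t_LNK1 : S_LNK1.{u} := by
  intro T _ _ Q d b hd hb
  have hE := hb.anti
  refine ⟨hd, ?_, ?_, ?_, ?_, ?_, ?_, ?_, ?_, ?_⟩
  · intro h
    have h1 : ((1 : W Q) : CliffordAlgebra Q) = ((0 : W Q) : CliffordAlgebra Q) := by rw [h]
    exact one_ne_zero h1
  · apply Subtype.ext
    rw [coe_MM _ (by simp)]
    simp
  · intro K L hK hL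
    obtain ⟨ε, h1, h2⟩ := mono_par hE (K.sort (· ≤ ·) ++ L.sort (· ≤ ·))
    refine ⟨ε, h1, Subtype.ext ?_⟩
    rw [par_append, par_sort, par_sort, mono_append] at h2
    show ((MM (Q := Q) b K : W Q) : CliffordAlgebra Q) * ((MM (Q := Q) b L : W Q) : CliffordAlgebra Q)
      = ε • ((MM (Q := Q) b (K ∆ L) : W Q) : CliffordAlgebra Q)
    rw [coe_MM _ hK, coe_MM _ hL, coe_MM _ (even_sd hK hL), h2]
  · intro K L hK hL
    apply Subtype.ext
    show ((MM (Q := Q) b K : W Q) : CliffordAlgebra Q) * ((MM (Q := Q) b L : W Q) : CliffordAlgebra Q)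
      = (-1 : ℂ) ^ (K ∩ L).card • (((MM (Q := Q) b L : W Q) : CliffordAlgebra Q) *
        ((MM (Q := Q) b K : W Q) : CliffordAlgebra Q))
    rw [coe_MM _ hK, coe_MM _ hL, mono_comm hE K L hK]
  · intro K hK
    apply Subtype.ext
    show reverse ((MM (Q := Q) b K : W Q) : CliffordAlgebra Q) = (-1 : ℂ) ^ (K.card / 2) •
      ((MM (Q := Q) b K : W Q) : CliffordAlgebra Q)
    rw [coe_MM _ hK, reverse_mono, mono_reverse hE _ (Finset.sort_nodup _ _), Finset.length_sort]
  · intro K hK
    apply Subtype.ext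
    show reverse ((MM (Q := Q) b K : W Q) : CliffordAlgebra Q) *
      ((MM (Q := Q) b K : W Q) : CliffordAlgebra Q) = 1
    rw [coe_MM _ hK, reverse_mono, reverse_mul_mono hE]
  · intro x y
    apply Subtype.ext
    show reverse ((x : CliffordAlgebra Q) * (y : CliffordAlgebra Q)) =
      reverse (y : CliffordAlgebra Q) * reverse (x : CliffordAlgebra Q)
    rw [reverse.map_mul]
  · intro x
    apply Subtype.ext
    show reverse (reverse (x : CliffordAlgebra Q)) = (x : CliffordAlgebra Q)
    rw [reverse_reverse]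
  · intro x
    have h1 : (x : CliffordAlgebra Q) ∈ Sev (fun i => ι Q (b i)) := even_le b _ x.2
    have h2 : Sev (fun i => ι Q (b i)) ≤
        (Submodule.span ℂ {x : W Q | ∃ K : Finset (Fin d), Even K.card ∧ x = MM (Q := Q) b K}).map
          (even Q).val.toLinearMap := by
      unfold Sev
      rw [Submodule.span_le]
      rintro y ⟨l, hl, rfl⟩
      obtain ⟨ε, -, h4⟩ := mono_par hE l
      rw [SetLike.mem_coe, h4]
      apply Submodule.smul_mem
      have h5 := (par_card l).2 hl
      refine ⟨MM (Q := Q) b (par l), Submodule.subset_span ⟨par l, h5, rfl⟩, ?_⟩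
      exact coe_MM _ h5
    obtain ⟨y, h3, h4⟩ := h2 h1
    have h5 : y = x := Subtype.ext h4
    rw [← h5]
    exact h3

end Pool.Agent.K1H94.SD
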