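import Pool.Agent.K1H14.SD.Stm4
import Pool.Agent.K1H59.SD.TR
import Pool.Agent.K1H85.SD.Avg
import Pool.Agent.K1H94.SD.Lnk1

set_option autoImplicit false

/-! Uniqueness of the Clifford module: `t_CLU`. -/

namespace Pool.Agent.K1H94.SD

open Pool.Agent.K1H14.KS Pool.Agent.K1H14.SD
open scoped symmDiff

universe u

variable {A : Type u} [Ring A] [Algebra ℂ A] {d : ℕ} {M : Finset (Fin d) → A} {st : A →ₗ[ℂ] A}

lemma cl_anti {m : Fin d → A} (h : ∀ i j, m i * m j + m j * m i = if i = j then -2 else 0) :
    Anti (fun i => Complex.I • m i) where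
  sq i := by
    have h1 := h i i
    rw [if_pos rfl] at h1
    have h2 : m i * m i = -1 := by
      have h3 : (2 : ℂ) • (m i * m i) = (2 : ℂ) • (-1 : A) := by
        rw [two_smul, h1, two_smul]
        norm_num
      have h4 := congrArg (fun x => (2 : ℂ)⁻¹ • x) h3
      simp only [smul_smul, inv_mul_cancel₀ (two_ne_zero : (2 : ℂ) ≠ 0), one_smul] at h4
      exact h4
    show (Complex.I • m i) * (Complex.I • m i) = 1
    rw [smul_mul_smul_comm, Complex.I_mul_I, h2, smul_neg, neg_smul, one_smul, neg_neg]
  anti i j hij := by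
    have h1 := h i j
    rw [if_neg hij] at h1
    show (Complex.I • m i) * (Complex.I • m j) = -((Complex.I • m j) * (Complex.I • m i))
    rw [smul_mul_smul_comm, smul_mul_smul_comm, eq_neg_of_add_eq_zero_left h1, smul_neg]

lemma card_er (i : Fin d) : ((Finset.univ : Finset (Fin d)).erase i).card = d - 1 := by
  rw [Finset.card_erase_of_mem (Finset.mem_univ i), Finset.card_univ, Fintype.card_fin]

lemma n_st (hE : EvenCl M st) (hd : d % 4 = 3) (i : Fin d) :
    st (M (Finset.univ.erase i)) = - M (Finset.univ.erase i) := by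
  have he : Even ((Finset.univ : Finset (Fin d)).erase i).card := by
    rw [card_er]
    exact ⟨(d - 1) / 2, by omega⟩
  rw [hE.st_M _ he, card_er]
  have ho : Odd ((d - 1) / 2) := ⟨(d - 3) / 4, by omega⟩
  rw [ho.neg_one_pow, neg_one_smul]

lemma n_rel (hE : EvenCl M st) (hd : d % 4 = 3) (i j : Fin d) :
    M (Finset.univ.erase i) * M (Finset.univ.erase j) +
      M (Finset.univ.erase j) * M (Finset.univ.erase i) = if i = j then -2 else 0 := by
  have he : ∀ i : Fin d, Even ((Finset.univ : Finset (Fin d)).erase i).card := by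
    intro i
    rw [card_er]
    exact ⟨(d - 1) / 2, by omega⟩
  by_cases hij : i = j
  · subst hij
    rw [if_pos rfl]
    have h1 := hE.st_inv _ (he i)
    rw [n_st hE hd, neg_mul] at h1
    have h2 : M (Finset.univ.erase i) * M (Finset.univ.erase i) = -1 := by
      rw [← h1, neg_neg]
    rw [h2]
    norm_num
  · rw [if_neg hij]
    have h1 := hE.comm _ _ (he i) (he j)
    have h2 : ((Finset.univ : Finset (Fin d)).erase i) ∩ (Finset.univ.erase j) =
        ((Finset.univ : Finset (Fin d)).erase i).erase j := by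
      ext x
      simp only [Finset.mem_inter, Finset.mem_erase, Finset.mem_univ, and_true]
      tauto
    have h3 : (((Finset.univ : Finset (Fin d)).erase i).erase j).card = d - 2 := by
      rw [Finset.card_erase_of_mem, card_er]
      · omega
      · exact Finset.mem_erase.2 ⟨fun h => hij h.symm, Finset.mem_univ _⟩
    have h4 : Odd (d - 2) := ⟨(d - 3) / 2, by omega⟩
    rw [h2, h3, h4.neg_one_pow, neg_one_smul] at h1
    rw [h1, neg_add_cancel]

lemma inv_c [FiniteDimensional ℂ A] {a a' : A} (h : a * a' = 1) : a' * a = 1 := by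
  have hinj : Function.Injective (LinearMap.mulLeft ℂ a') := by
    rw [injective_iff_map_eq_zero]
    intro x hx
    rw [LinearMap.mulLeft_apply] at hx
    rw [← one_mul x, ← h, mul_assoc, hx, mul_zero]
  obtain ⟨t, ht⟩ := LinearMap.surjective_of_injective hinj 1
  rw [LinearMap.mulLeft_apply] at ht
  have h1 : a = t := by
    rw [← mul_one a, ← ht, ← mul_assoc, h, one_mul]
  rw [h1]; exact ht

/-- a common eigenvector -/
lemma exists_eig (hne : (1 : A) ≠ 0) {e f : Fin d → A} (he : Anti e) (hf : Anti f) :
    ∀ L : List (Fin d), ∃ z : A, z ≠ 0 ∧ ∀ j ∈ L, ∃ ε : ℂ, (ε = 1 ∨ ε = -1) ∧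
      e j * z * f j = ε • z := by
  intro L
  induction L with
  | nil => exact ⟨1, hne, by simp⟩
  | cons j L ih =>
    obtain ⟨z, hz0, hzL⟩ := ih
    have hjj : e j * (e j * z * f j) * f j = z := by
      calc e j * (e j * z * f j) * f j = (e j * e j) * z * (f j * f j) := by
            simp only [mul_assoc]
        _ = z := by rw [he.sq, hf.sq, one_mul, mul_one]
    by_cases h : z + e j * z * f j = 0
    · refine ⟨z, hz0, ?_⟩
      intro k hk
      rcases List.mem_cons.mp hk with rfl | hk
      · exact ⟨-1, Or.inr rfl, by rw [neg_one_smul]; exact (neg_eq_of_add_eq_zero_right h).symm⟩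
      · exact hzL k hk
    · refine ⟨z + e j * z * f j, h, ?_⟩
      intro k hk
      rcases List.mem_cons.mp hk with rfl | hk
      · exact ⟨1, Or.inl rfl, by rw [mul_add, add_mul, hjj, one_smul, add_comm]⟩
      · obtain ⟨ε, hε, h1⟩ := hzL k hk
        refine ⟨ε, hε, ?_⟩
        by_cases hkj : k = j
        · subst hkj
          rw [mul_add, add_mul, hjj, h1, smul_add]
          rw [h1] at hjj
          rw [mul_smul_comm, smul_mul_assoc, h1] at hjj
          rw [hjj]
        · have h2 : e k * (e j * z * f j) * f k = e j * (e k * z * f k) * f j := by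
            calc e k * (e j * z * f j) * f k = (e k * e j) * z * (f j * f k) := by
                  simp only [mul_assoc]
              _ = (e j * e k) * z * (f k * f j) := by
                  rw [he.anti k j hkj, hf.anti j k (fun h => hkj h.symm), neg_mul, neg_mul, mul_neg,
                    neg_neg]
              _ = e j * (e k * z * f k) * f j := by simp only [mul_assoc]
          rw [mul_add, add_mul, h2, h1, smul_add, mul_smul_comm, smul_mul_assoc]

/-- the set of a product of the `n_i` -/
def TT : List (Fin d) → Finset (Fin d)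
  | [] => ∅
  | a :: l => (Finset.univ.erase a) ∆ TT l

lemma TT_even (hd : Odd d) (l : List (Fin d)) : Even (TT l).card := by
  induction l with
  | nil => simp [TT]
  | cons a l ih =>
    show Even ((Finset.univ.erase a) ∆ TT l).card
    refine even_sd ?_ ih
    rw [card_er]
    obtain ⟨k, hk⟩ := hd
    exact ⟨k, by omega⟩

lemma TT_eq (l : List (Fin d)) :
    TT l = if Even l.length then par l else Finset.univ ∆ par l := by
  induction l with
  | nil => simp [TT, par]
  | cons a l ih =>
    show (Finset.univ.erase a) ∆ TT l = if Even (l.length + 1) then par l ∆ {a} else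
      Finset.univ ∆ (par l ∆ {a})
    rw [ih]
    by_cases h : Even l.length
    · rw [if_pos h, if_neg (by rw [Nat.even_add_one]; exact not_not.2 h)]
      ext x
      simp only [Finset.mem_symmDiff, Finset.mem_erase, Finset.mem_univ, Finset.mem_singleton]
      tauto
    · rw [if_neg h, if_pos (by rw [Nat.even_add_one]; exact h)]
      ext x
      simp only [Finset.mem_symmDiff, Finset.mem_erase, Finset.mem_univ, Finset.mem_singleton]
      tauto

lemma TT_sort (K : Finset (Fin d)) (hK : Even K.card) : TT (K.sort (· ≤ ·)) = K := by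
  rw [TT_eq, Finset.length_sort, if_pos hK, par_sort]

lemma mono_n (hE : EvenCl M st) (l : List (Fin d)) :
    ∃ c : ℂ, c ≠ 0 ∧ mono (fun i => Complex.I • M (Finset.univ.erase i)) l = c • M (TT l) := by
  induction l with
  | nil => exact ⟨1, one_ne_zero, by rw [one_smul, mono_nil]; exact hE.one.symm⟩
  | cons a l ih =>
    obtain ⟨c, hc, h⟩ := ih
    obtain ⟨ε, hε, h1⟩ := hE.mul (Finset.univ.erase a) (TT l) (by
      rw [card_er]
      obtain ⟨k, hk⟩ := hE.odd
      exact ⟨k, by omega⟩) (TT_even hE.odd l)
    refine ⟨Complex.I * c * ε, ?_, ?_⟩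
    · refine mul_ne_zero (mul_ne_zero Complex.I_ne_zero hc) ?_
      rcases hε with rfl | rfl <;> norm_num
    · rw [mono_cons, h, smul_mul_smul_comm, h1, smul_smul]
      rfl

lemma tr_mono {e : Fin d → A} (he : Anti e) {tr : A →ₗ[ℂ] ℂ} (htr : ∀ x y, tr (x * y) = tr (y * x))
    (K : Finset (Fin d)) (hK : Even K.card) (hne : K ≠ ∅) : tr (mono e (K.sort (· ≤ ·))) = 0 := by
  obtain ⟨i, hi⟩ := Finset.nonempty_iff_ne_empty.2 hne
  have h1 := mono_mul_E he i (K.sort (· ≤ ·))
  rw [sg_even K hK i, if_pos hi, neg_one_smul] at h1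
  have h2 : tr (mono e (K.sort (· ≤ ·))) = tr (mono e (K.sort (· ≤ ·)) * e i * e i) := by
    rw [mul_assoc, he.sq, mul_one]
  have h3 : tr (mono e (K.sort (· ≤ ·)) * e i * e i) = - tr (mono e (K.sort (· ≤ ·))) := by
    rw [h1, neg_mul, map_neg, mul_assoc, htr (e i), mul_assoc, he.sq, mul_one]
  have h4 : tr (mono e (K.sort (· ≤ ·))) = - tr (mono e (K.sort (· ≤ ·))) := h2.trans h3
  have h5 : (2 : ℂ) * tr (mono e (K.sort (· ≤ ·))) = 0 := by linear_combination h4
  rcases mul_eq_zero.1 h5 with h | h
  · norm_num at h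
  · exact h

lemma span_e (hE : EvenCl M st) {tr : A →ₗ[ℂ] ℂ} (hT : IsTr M tr) {e : Fin d → A}
    (he : Anti e) : Submodule.span ℂ (Set.range fun K : evs d =>
      mono e ((K : Finset (Fin d)).sort (· ≤ ·))) = ⊤ := by
  have hfd := (Pool.Agent.K1H59.SD.t_TR M st hE).1
  have hli : LinearIndependent ℂ fun K : evs d => mono e ((K : Finset (Fin d)).sort (· ≤ ·)) := by
    rw [Fintype.linearIndependent_iff]
    intro g hg L
    have hL := (Pool.Agent.K1H85.SD.mem_evs).1 L.2
    have h1 := congrArg (fun x => tr (mono e ((L : Finset (Fin d)).sort (· ≤ ·)).reverse * x)) hg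
    simp only [mul_zero, map_zero, Finset.mul_sum, map_sum] at h1
    rw [Finset.sum_eq_single L] at h1
    · rw [mul_smul_comm, reverse_mul_mono he, map_smul, ← hE.one, hT.1 ∅ (by simp), if_pos rfl,
        smul_eq_mul, mul_one] at h1
      exact h1
    · intro K _ hKL
      have hK := (Pool.Agent.K1H85.SD.mem_evs).1 K.2
      rw [mul_smul_comm, map_smul, ← mono_append]
      obtain ⟨ε, -, h2⟩ := mono_par he (((L : Finset (Fin d)).sort (· ≤ ·)).reverse ++
        (K : Finset (Fin d)).sort (· ≤ ·))
      have h3 : par (((L : Finset (Fin d)).sort (· ≤ ·)).reverse ++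
          (K : Finset (Fin d)).sort (· ≤ ·)) = (L : Finset (Fin d)) ∆ K := by
        rw [par_append, par_sort, par_nodup _ (List.nodup_reverse.2 (Finset.sort_nodup _ _)),
          List.toFinset_reverse, Finset.sort_toFinset]
      rw [h2, h3, map_smul, tr_mono he hT.2 _ (even_sd hL hK), smul_zero, smul_zero]
      intro h4
      apply hKL
      have h5 : (L : Finset (Fin d)) = K := symmDiff_eq_bot.1 h4
      exact (Subtype.ext h5).symm
    · intro h
      exact absurd (Finset.mem_univ _) h
  have hspan : Submodule.span ℂ (Set.range fun K : evs d => M K) = ⊤ := by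
    rw [eq_top_iff]
    intro x _
    refine Submodule.span_mono ?_ (hE.span x)
    rintro _ ⟨K, hK, rfl⟩
    exact ⟨⟨K, (Pool.Agent.K1H85.SD.mem_evs).2 hK⟩, rfl⟩
  apply hli.span_eq_top_of_card_eq_finrank'
  apply le_antisymm
  · exact hli.fintype_card_le_finrank
  · have h1 := finrank_range_le_card (R := ℂ) (fun K : evs d => M K)
    unfold Set.finrank at h1
    rw [hspan, finrank_top] at h1
    exact h1

theorem t_CLU : S_CLU.{u} := by
  intro A _ _ d M st m hE hd hst hrel
  obtain ⟨hfd, tr, hT⟩ := Pool.Agent.K1H59.SD.t_TR M st hE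
  obtain ⟨hA1, hA2⟩ := Pool.Agent.K1H85.SD.t_AVG M st tr hE hT
  have hPRM := Pool.Agent.K1H85.SD.t_PRM Pool.Agent.K1H59.SD.t_TR Pool.Agent.K1H85.SD.t_AVG M st hE
  set n : Fin d → A := fun i => M (Finset.univ.erase i) with hn
  set e : Fin d → A := fun i => Complex.I • m i with he'
  set f : Fin d → A := fun i => Complex.I • n i with hf'
  have he : Anti e := cl_anti hrel
  have hf : Anti f := cl_anti (n_rel hE hd)
  obtain ⟨z, hz0, hz⟩ := exists_eig hE.ne he hf (Finset.univ.toList)
  choose! ε hε hεz using hz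
  have hεz' : ∀ i, e i * z * f i = ε i • z := fun i => hεz i (Finset.mem_toList.2 (Finset.mem_univ i))
  have hε' : ∀ i, ε i = 1 ∨ ε i = -1 := fun i => hε i (Finset.mem_toList.2 (Finset.mem_univ i))
  set K : Finset (Fin d) := Finset.univ.filter fun i => ε i = -1 with hK
  set F : A := mono f (K.sort (· ≤ ·)) with hF
  set t0 : A := z * F with ht0
  set σ : ℂ := (-1) ^ K.card with hσ
  have hσ1 : σ = 1 ∨ σ = -1 := neg_one_pow_eq_or ℂ _
  have hσ2 : σ * σ = 1 := by rcases hσ1 with h | h <;> rw [h] <;> norm_num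
  have ht00 : t0 ≠ 0 := by
    intro h
    apply hz0
    have h1 : z * F * mono f (K.sort (· ≤ ·)).reverse = 0 := by rw [← ht0, h, zero_mul]
    rwa [mul_assoc, hF, mono_mul_reverse hf, mul_one] at h1
  have hcom : ∀ i, e i * t0 = σ • (t0 * f i) := by
    intro i
    have h1 : e i * z = ε i • (z * f i) := by
      have h2 := congrArg (fun x => x * f i) (hεz' i)
      simp only [smul_mul_assoc] at h2
      rwa [mul_assoc, hf.sq, mul_one] at h2
    have h2 := mono_mul_E hf i (K.sort (· ≤ ·))
    have h3 : f i * F = sg i (K.sort (· ≤ ·)) • (F * f i) := by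
      rw [hF, h2, smul_smul, sg_sq, one_smul]
    have h4 : ε i * sg i (K.sort (· ≤ ·)) = σ := by
      have h5 := sg_count i (K.sort (· ≤ ·))
      rw [Finset.length_sort] at h5
      rcases hε' i with h6 | h6
      · have h7 : i ∉ K := by
          rw [hK, Finset.mem_filter]
          rintro ⟨-, h8⟩
          rw [h6] at h8
          norm_num at h8
        rw [List.count_eq_zero_of_not_mem (by rw [Finset.mem_sort]; exact h7)] at h5
        rw [h6, hσ, ← h5]
        ring
      · have h7 : i ∈ K := by
          rw [hK, Finset.mem_filter]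
          exact ⟨Finset.mem_univ _, h6⟩
        rw [List.count_eq_one_of_mem (Finset.sort_nodup _ _) ((Finset.mem_sort _).2 h7)] at h5
        rw [h6, hσ, ← h5]
        ring
    rw [ht0, ← mul_assoc, h1, smul_mul_assoc, mul_assoc, h3, mul_smul_comm, smul_smul, h4,
      mul_assoc]
  have hste : ∀ i, st (e i) = - e i := by
    intro i
    simp only [he', map_smul, hst, smul_neg]
  have hstf : ∀ i, st (f i) = - f i := by
    intro i
    simp only [hf', hn, map_smul, n_st hE hd, smul_neg]
  have hcom' : ∀ i, st t0 * e i = σ • (f i * st t0) := by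
    intro i
    have h1 : st (e i * t0) = st (σ • (t0 * f i)) := congrArg st (hcom i)
    have h2 : st (e i * t0) = -(st t0 * e i) := by
      rw [hE.st_mul (e i) t0, hste i, mul_neg]
    have h3 : st (σ • (t0 * f i)) = -(σ • (f i * st t0)) := by
      rw [map_smul st σ (t0 * f i), hE.st_mul t0 (f i), hstf i, neg_mul, smul_neg]
    rw [h2, h3, neg_inj] at h1
    exact h1
  set w : A := st t0 * t0 with hw
  have hwf : ∀ i, w * f i = f i * w := by
    intro i
    have h1 : t0 * f i = σ • (e i * t0) := by rw [hcom, smul_smul, hσ2, one_smul]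
    rw [hw, mul_assoc, h1, mul_smul_comm, ← mul_assoc, hcom', smul_mul_assoc, smul_smul, hσ2,
      one_smul, mul_assoc]
  have hwm : ∀ l : List (Fin d), w * mono f l = mono f l * w := by
    intro l
    induction l with
    | nil => simp
    | cons a l ih => rw [mono_cons, ← mul_assoc, hwf, mul_assoc, ih, ← mul_assoc]
  have hwM : ∀ K : Finset (Fin d), Even K.card → w * M K = M K * w := by
    intro K hK
    obtain ⟨c, hc, h⟩ := mono_n hE (K.sort (· ≤ ·))
    rw [TT_sort K hK] at h
    have h1 := hwm (K.sort (· ≤ ·))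
    rw [show mono f (K.sort (· ≤ ·)) = c • M K from h, mul_smul_comm, smul_mul_assoc] at h1
    exact (smul_right_injective A hc) h1
  -- `w` is a scalar
  have hws : w = tr w • (1 : A) := by
    have h1 := hA1 w
    have h2 : ∑ K ∈ evs d, M K * w * st (M K) = ∑ K ∈ evs d, w := by
      refine Finset.sum_congr rfl fun K hK => ?_
      have hKe := (Pool.Agent.K1H85.SD.mem_evs).1 hK
      rw [← hwM K hKe, mul_assoc, Pool.Agent.K1H85.SD.M_mul_st hE hKe, mul_one]
    rw [h2, Finset.sum_const, Pool.Agent.K1H85.SD.card_evs hE.odd.pos] at h1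
    have h3 : (2 : ℂ) ^ (d - 1) • w = (2 : ℂ) ^ (d - 1) • (tr w • (1 : A)) := by
      rw [smul_smul, ← h1, ← Nat.cast_smul_eq_nsmul ℂ]
      push_cast
      rfl
    exact (smul_right_injective A (pow_ne_zero _ two_ne_zero)) h3
  set ν : ℂ := tr w with hν
  have hν0 : ν ≠ 0 := by
    intro h0
    rw [h0, zero_smul] at hws
    have h1 : ∀ l : List (Fin d), ∃ c : ℂ, mono e l * t0 = c • (t0 * mono f l) := by
      intro l
      induction l with
      | nil => exact ⟨1, by simp⟩
      | cons a l ih =>
        obtain ⟨c, hc⟩ := ih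
        refine ⟨c * σ, ?_⟩
        rw [mono_cons, mul_assoc, hc, mul_smul_comm, ← mul_assoc, hcom, smul_mul_assoc, smul_smul,
          mul_assoc, mono_cons]
    have h2 : ∀ x : A, st t0 * x * t0 = 0 := by
      intro x
      have hx : x ∈ Submodule.span ℂ (Set.range fun K : evs d =>
          mono e ((K : Finset (Fin d)).sort (· ≤ ·))) := by
        rw [span_e hE hT he]; trivial
      induction hx using Submodule.span_induction with
      | mem x hx =>
        obtain ⟨K, rfl⟩ := hx
        obtain ⟨c, hc⟩ := h1 ((K : Finset (Fin d)).sort (· ≤ ·))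
        simp only
        rw [mul_assoc, hc, mul_smul_comm, ← mul_assoc, ← hw, hws, zero_mul, smul_zero]
      | zero => simp
      | add x y _ _ hx hy => rw [mul_add, add_mul, hx, hy, add_zero]
      | smul c x _ hx => rw [mul_smul_comm, smul_mul_assoc, hx, smul_zero]
    rcases hPRM (st t0) t0 (fun K _ => h2 (M K)) with h | h
    · apply ht00
      rw [← hE.st_st t0, h, map_zero]
    · exact ht00 h
  obtain ⟨s, hs⟩ := IsAlgClosed.exists_eq_mul_self ν
  have hs0 : s ≠ 0 := by
    rintro rfl
    apply hν0
    rw [hs, mul_zero]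
  have hone : st (s⁻¹ • t0) * (s⁻¹ • t0) = 1 := by
    rw [map_smul, smul_mul_smul_comm, ← hw, hws, smul_smul, hs]
    have : s⁻¹ * s⁻¹ * (s * s) = 1 := by field_simp
    rw [this, one_smul]
  refine ⟨s⁻¹ • t0, σ, hσ1, hone, ?_, fun i => ?_⟩
  · exact inv_c hone
  · have h1 := hcom i
    simp only [he', hf', smul_mul_assoc, mul_smul_comm] at h1
    rw [smul_comm] at h1
    have h2 := (smul_right_injective A Complex.I_ne_zero) h1
    rw [mul_smul_comm, h2, smul_mul_assoc, smul_comm]

end Pool.Agent.K1H94.SD
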